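import Pool.Agent.ASO.Stmts2

/-!
# Squad ASO, row ACX: the action of the braid group on the triples
-/

noncomputable section

namespace Pool.Agent.PP.SO.H16

variable {G : Type} [Group G] {g h : G}

theorem xext {w w' : XX g h} (h1 : w.1.1 = w'.1.1) (h2 : w.1.2.1 = w'.1.2.1)
    (h3 : w.1.2.2 = w'.1.2.2) : w = w' :=
  Subtype.ext (Prod.ext h1 (Prod.ext h2 h3))

def pA (g h : G) : Equiv.Perm (XX g h) where
  toFun w := ⟨(w.1.1, w.1.2.1 * w.1.1, w.1.2.2), by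
    have e := w.2
    show w.1.1 * (w.1.2.1 * w.1.1) * w.1.1⁻¹ * (w.1.2.1 * w.1.1)⁻¹ = _
    rw [← e]
    group⟩
  invFun w := ⟨(w.1.1, w.1.2.1 * w.1.1⁻¹, w.1.2.2), by
    have e := w.2
    show w.1.1 * (w.1.2.1 * w.1.1⁻¹) * w.1.1⁻¹ * (w.1.2.1 * w.1.1⁻¹)⁻¹ = _
    rw [← e]
    group⟩
  left_inv w := xext rfl (by simp) rfl
  right_inv w := xext rfl (by simp) rfl

def pB (g h : G) : Equiv.Perm (XX g h) where
  toFun w := ⟨(w.1.1 * w.1.2.1⁻¹, w.1.2.1, w.1.2.2), by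
    have e := w.2
    show (w.1.1 * w.1.2.1⁻¹) * w.1.2.1 * (w.1.1 * w.1.2.1⁻¹)⁻¹ * w.1.2.1⁻¹ = _
    rw [← e]
    group⟩
  invFun w := ⟨(w.1.1 * w.1.2.1, w.1.2.1, w.1.2.2), by
    have e := w.2
    show (w.1.1 * w.1.2.1) * w.1.2.1 * (w.1.1 * w.1.2.1)⁻¹ * w.1.2.1⁻¹ = _
    rw [← e]
    group⟩
  left_inv w := xext (by simp) rfl rfl
  right_inv w := xext (by simp) rfl rfl

def pC (g h : G) : Equiv.Perm (XX g h) where
  toFun w := ⟨(w.1.1, g⁻¹ * w.1.1 * w.1.2.1, g⁻¹ * w.1.1 * w.1.2.2), by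
    have e := w.2
    show w.1.1 * (g⁻¹ * w.1.1 * w.1.2.1) * w.1.1⁻¹ * (g⁻¹ * w.1.1 * w.1.2.1)⁻¹ =
      g * ((g⁻¹ * w.1.1 * w.1.2.2) * h * (g⁻¹ * w.1.1 * w.1.2.2)⁻¹)
    calc w.1.1 * (g⁻¹ * w.1.1 * w.1.2.1) * w.1.1⁻¹ * (g⁻¹ * w.1.1 * w.1.2.1)⁻¹
        = w.1.1 * g⁻¹ * (w.1.1 * w.1.2.1 * w.1.1⁻¹ * w.1.2.1⁻¹) * w.1.1⁻¹ * g := by group
      _ = w.1.1 * g⁻¹ * (g * (w.1.2.2 * h * w.1.2.2⁻¹)) * w.1.1⁻¹ * g := by rw [e]
      _ = _ := by group⟩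
  invFun w := ⟨(w.1.1, w.1.1⁻¹ * g * w.1.2.1, w.1.1⁻¹ * g * w.1.2.2), by
    have e := w.2
    show w.1.1 * (w.1.1⁻¹ * g * w.1.2.1) * w.1.1⁻¹ * (w.1.1⁻¹ * g * w.1.2.1)⁻¹ =
      g * ((w.1.1⁻¹ * g * w.1.2.2) * h * (w.1.1⁻¹ * g * w.1.2.2)⁻¹)
    have e' : w.1.2.1 * w.1.1⁻¹ * w.1.2.1⁻¹ = w.1.1⁻¹ * (g * (w.1.2.2 * h * w.1.2.2⁻¹)) := by
      rw [← e]
      group
    calc w.1.1 * (w.1.1⁻¹ * g * w.1.2.1) * w.1.1⁻¹ * (w.1.1⁻¹ * g * w.1.2.1)⁻¹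
        = g * (w.1.2.1 * w.1.1⁻¹ * w.1.2.1⁻¹) * g⁻¹ * w.1.1 := by group
      _ = g * (w.1.1⁻¹ * (g * (w.1.2.2 * h * w.1.2.2⁻¹))) * g⁻¹ * w.1.1 := by rw [e']
      _ = _ := by group⟩
  left_inv w := xext rfl (by
      show w.1.1⁻¹ * g * (g⁻¹ * w.1.1 * w.1.2.1) = w.1.2.1
      group) (by
      show w.1.1⁻¹ * g * (g⁻¹ * w.1.1 * w.1.2.2) = w.1.2.2
      group)
  right_inv w := xext rfl (by
      show g⁻¹ * w.1.1 * (w.1.1⁻¹ * g * w.1.2.1) = w.1.2.1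
      group) (by
      show g⁻¹ * w.1.1 * (w.1.1⁻¹ * g * w.1.2.2) = w.1.2.2
      group)

theorem eA (w : XX g h) : (pA g h w).1 = (w.1.1, w.1.2.1 * w.1.1, w.1.2.2) := rfl

theorem eB (w : XX g h) : (pB g h w).1 = (w.1.1 * w.1.2.1⁻¹, w.1.2.1, w.1.2.2) := rfl

theorem eC (w : XX g h) :
    (pC g h w).1 = (w.1.1, g⁻¹ * w.1.1 * w.1.2.1, g⁻¹ * w.1.1 * w.1.2.2) := rfl

theorem acx : AcxStmt := by
  intro G _ g h
  have k1 : ∀ w : XX g h, ((pA g h * pB g h) w).1 =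
      (w.1.1 * w.1.2.1⁻¹, w.1.2.1 * w.1.1 * w.1.2.1⁻¹, w.1.2.2) := by
    intro w
    simp only [Equiv.Perm.mul_apply, eA, eB, mul_assoc]
  have k2 : ∀ w : XX g h, ((pA g h * pB g h * pC g h) w).1 =
      (w.1.1 * w.1.2.1⁻¹ * w.1.1⁻¹ * g, g⁻¹ * w.1.1 * w.1.2.1 * w.1.1 * w.1.2.1⁻¹ * w.1.1⁻¹ * g,
        g⁻¹ * w.1.1 * w.1.2.2) := by
    intro w
    rw [Equiv.Perm.mul_apply, k1]
    simp only [eC]
    refine Prod.ext ?_ (Prod.ext ?_ rfl)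
    · group
    · group
  refine ⟨pA g h, pB g h, pC g h, ?_, ?_, ?_, eA, eB, eC, ?_, ?_⟩
  · refine Equiv.ext fun w => xext ?_ ?_ ?_
    · simp only [Equiv.Perm.mul_apply, eA, eB]
      group
    · simp only [Equiv.Perm.mul_apply, eA, eB]
      group
    · simp only [Equiv.Perm.mul_apply, eA, eB]
  · refine Equiv.ext fun w => xext ?_ ?_ ?_
    · simp only [Equiv.Perm.mul_apply, eC, eB]
      group
    · simp only [Equiv.Perm.mul_apply, eC, eB]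
      group
    · simp only [Equiv.Perm.mul_apply, eC, eB]
      group
  · refine Equiv.ext fun w => xext ?_ ?_ ?_
    · simp only [Equiv.Perm.mul_apply, eC, eA]
    · simp only [Equiv.Perm.mul_apply, eC, eA]
      group
    · simp only [Equiv.Perm.mul_apply, eC, eA]
  · intro w
    have k3 : ∀ w : XX g h, (((pA g h * pB g h * pC g h) ^ 2) w).1 =
        (w.1.1⁻¹ * g, g⁻¹ * w.1.1 * w.1.1 * w.1.2.1⁻¹ * w.1.1⁻¹ * g * w.1.1⁻¹ * g,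
          g⁻¹ * w.1.1 * w.1.2.1⁻¹ * w.1.2.2) := by
      intro w
      rw [pow_two, Equiv.Perm.mul_apply, k2]
      simp only [k2]
      refine Prod.ext ?_ (Prod.ext ?_ ?_)
      · group
      · group
      · group
    have e : g⁻¹ * w.1.2.2 * h =
        g⁻¹ * g⁻¹ * (w.1.1 * w.1.2.1 * w.1.1⁻¹ * w.1.2.1⁻¹) * w.1.2.2 := by
      have e0 : w.1.1 * w.1.2.1 * w.1.1⁻¹ * w.1.2.1⁻¹ = g * (w.1.2.2 * h * w.1.2.2⁻¹) := w.2
      rw [e0]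
      group
    rw [show 4 = 2 + 2 from rfl, pow_add, Equiv.Perm.mul_apply, k3]
    simp only [k3]
    refine Prod.ext ?_ (Prod.ext ?_ ?_)
    · group
    · group
    · refine Eq.trans ?_ e.symm
      group
  · intro w
    have k3 : ∀ w : XX g h, (((pA g h * pB g h) ^ 3) w).1 =
        (w.1.2.1 * w.1.1⁻¹ * w.1.2.1⁻¹, w.1.2.1 * w.1.1 * w.1.2.1⁻¹ * w.1.1⁻¹ * w.1.2.1⁻¹,
          w.1.2.2) := by
      intro w
      rw [pow_succ, pow_two, Equiv.Perm.mul_apply, Equiv.Perm.mul_apply, k1]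
      simp only [k1]
      refine Prod.ext ?_ (Prod.ext ?_ rfl)
      · group
      · group
    rw [show 6 = 3 + 3 from rfl, pow_add, Equiv.Perm.mul_apply, k3]
    simp only [k3, kap]
    refine Prod.ext ?_ (Prod.ext ?_ rfl)
    · group
    · group

end Pool.Agent.PP.SO.H16
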